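import Pool.Agent.H95.CF.Targets

/-!
# (DE1) the classes of two vectors differ by an element of `H d`: necessary condition
-/

set_option autoImplicit false

open NumberField Module MeasureTheory Set Filter
open scoped nonZeroDivisors Real

namespace Pool.Agent.H35.CF

open Pool.Agent.H31.CN Pool.Agent.H95.CF

section

variable {K : Type} [Field K] [NumberField K]

/-- products of ideals prime to `f` -/
theorem pr_mul {f : ℕ} {I J : Ideal (𝓞 K)} (hI : Pr K f I) (hJ : Pr K f J) : Pr K f (I * J) := by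
  refine ⟨fun h => ?_, ?_⟩
  · rcases Ideal.mul_eq_bot.1 h with h | h
    · exact hI.1 h
    · exact hJ.1 h
  · have h1 : IsCoprime I (Ideal.span {(f : 𝓞 K)}) := Ideal.isCoprime_iff_sup_eq.2 hI.2
    have h2 : IsCoprime J (Ideal.span {(f : 𝓞 K)}) := Ideal.isCoprime_iff_sup_eq.2 hJ.2
    exact Ideal.isCoprime_iff_sup_eq.1 (h1.mul_left h2)

/-- ideals whose norm is prime to `f` -/
theorem pr_norm {f : ℕ} {J : Ideal (𝓞 K)} (h0 : J ≠ ⊥)
    (h : IsCoprime (Ideal.absNorm J : ℤ) (f : ℤ)) : Pr K f J := by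
  refine ⟨h0, ?_⟩
  obtain ⟨x, y, hxy⟩ := h
  rw [Ideal.eq_top_iff_one]
  have e : (1 : 𝓞 K) = (x : 𝓞 K) * (Ideal.absNorm J : 𝓞 K) + (y : 𝓞 K) * (f : 𝓞 K) := by
    have h1 := congrArg (fun z : ℤ => (z : 𝓞 K)) hxy
    push_cast at h1
    exact h1.symm
  rw [e]
  refine Ideal.add_mem _ (Ideal.mem_sup_left ?_) (Ideal.mem_sup_right ?_)
  · exact Ideal.mul_mem_left _ _ (Ideal.absNorm_mem J)
  · exact Ideal.mul_mem_left _ _ (Ideal.mem_span_singleton_self _)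

/-- an integer which is prime to `f` in the ring of integers -/
theorem cop_int {l : ℤ} {f : ℕ} {x y : 𝓞 K} (h : x * (l : 𝓞 K) + y * (f : 𝓞 K) = 1) :
    IsCoprime l (f : ℤ) := by
  rw [Int.isCoprime_iff_gcd_eq_one]
  have hu : IsUnit (algebraMap ℤ (𝓞 K) (Int.gcd l f : ℤ)) := by
    rw [isUnit_iff_dvd_one, ← h]
    have h1 : algebraMap ℤ (𝓞 K) (Int.gcd l f : ℤ) ∣ (l : 𝓞 K) := by
      have := map_dvd (algebraMap ℤ (𝓞 K)) (Int.gcd_dvd_left l (f : ℤ))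
      simpa using this
    have h2 : algebraMap ℤ (𝓞 K) (Int.gcd l f : ℤ) ∣ (f : 𝓞 K) := by
      have := map_dvd (algebraMap ℤ (𝓞 K)) (Int.gcd_dvd_right l (f : ℤ))
      simpa using this
    exact dvd_add (h1.mul_left x) (h2.mul_left y)
  have h3 := isUnit_of_map_unit (algebraMap ℤ (𝓞 K)) _ hu
  rw [Int.isUnit_iff_natAbs_eq] at h3
  simpa using h3

theorem rat_ne {f m : ℕ} {a : 𝓞 K} (h : Rat K f m a) : a ≠ 0 := by
  rintro rfl
  exact h.1.1 (by simp)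

theorem rat_int {f m : ℕ} {a : 𝓞 K} (h : Rat K f m a) :
    ∃ (n : ℤ) (b : 𝓞 K), a = (n : 𝓞 K) + (m : 𝓞 K) * b := by
  obtain ⟨_, n, hn⟩ := h
  obtain ⟨b, hb⟩ := Ideal.mem_span_singleton.1 hn
  exact ⟨n, b, by linear_combination hb⟩

end

theorem pf_DE1 : T_DE1 := by
  intro D K _ _ σ Q I α β b f G _ cl hD hfin hdis hF hf hG d hd c c' v v' hv hv' hu hu' hH
  have hprv : Pr K f (b c v : Ideal (𝓞 K)) := by
    refine pr_norm (nonZeroDivisors.coe_ne_zero _) ?_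
    rw [hF.nrm c v hv]
    exact hu
  have hprv' : Pr K f (b c' v' : Ideal (𝓞 K)) := by
    refine pr_norm (nonZeroDivisors.coe_ne_zero _) ?_
    rw [hF.nrm c' v' hv']
    exact hu'
  obtain ⟨a, ha, hcla⟩ := hH
  have hmul := hG.mul _ _ ha.1 hprv
  rw [hcla] at hmul
  have hcl : cl (Ideal.span {a} * (b c v : Ideal (𝓞 K))) = cl (b c' v') := by
    rw [hmul, mul_comm, mul_inv_cancel_left]
  obtain ⟨mu, lam, hmu, hlam, he⟩ := (hG.eqv _ _ (pr_mul ha.1 hprv) hprv').1 hcl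
  have he' : Ideal.span {mu * a} * (b c v : Ideal (𝓞 K)) =
      Ideal.span {lam} * (b c' v' : Ideal (𝓞 K)) := by
    rw [← he, ← Ideal.span_singleton_mul_span_singleton, mul_assoc]
  have hcc : c = c' := by
    rw [← hF.cls c v hv, ← hF.cls c' v' hv', ClassGroup.mk0_eq_mk0_iff]
    exact ⟨mu * a, lam, mul_ne_zero (rat_ne hmu) (rat_ne ha), rat_ne hlam, he'⟩
  subst hcc
  refine ⟨rfl, ?_⟩
  have hsp : Ideal.span {mu * a * ((v.1 : 𝓞 K) * α c + (v.2 : 𝓞 K) * β c)} =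
      Ideal.span {lam * ((v'.1 : 𝓞 K) * α c + (v'.2 : 𝓞 K) * β c)} := by
    rw [← Ideal.span_singleton_mul_span_singleton (mu * a), hF.spn c v hv, ← mul_assoc, he',
      mul_assoc, ← hF.spn c v' hv', Ideal.span_singleton_mul_span_singleton]
  rw [Ideal.span_singleton_eq_span_singleton] at hsp
  obtain ⟨u, hu1⟩ := hsp
  obtain ⟨e, he1⟩ : ∃ e : ℤ, (u : 𝓞 K) = (e : 𝓞 K) := by
    rcases unit_triv D K σ hD hfin hdis u with h | h
    · exact ⟨1, by rw [h]; simp⟩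
    · exact ⟨-1, by rw [h]; simp⟩
  rw [he1] at hu1
  obtain ⟨q, rfl⟩ := hd
  have hd0 : 0 < d := Nat.pos_of_ne_zero fun h => by simp [h] at hf
  have hq : d * q / d = q := Nat.mul_div_cancel_left q hd0
  rw [hq] at ha ⊢
  obtain ⟨a0, a', ha'⟩ := rat_int ha
  obtain ⟨l, lam', hl⟩ := rat_int hlam
  obtain ⟨m, mu', hm⟩ := rat_int hmu
  have hin : ∀ w : ℤ × ℤ, (w.1 : 𝓞 K) * α c + (w.2 : 𝓞 K) * β c ∈ (I c : Ideal (𝓞 K)) :=
    fun w => ((hF.ob c).mem _).2 ⟨w, rfl⟩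
  have hbr : -(d : 𝓞 K) * lam' * ((v'.1 : 𝓞 K) * α c + (v'.2 : 𝓞 K) * β c) +
      (e : 𝓞 K) * ((m : 𝓞 K) * a' + (d : 𝓞 K) * mu' * a) *
        ((v.1 : 𝓞 K) * α c + (v.2 : 𝓞 K) * β c) ∈ (I c : Ideal (𝓞 K)) :=
    Ideal.add_mem _ (Ideal.mul_mem_left _ _ (hin v')) (Ideal.mul_mem_left _ _ (hin v))
  obtain ⟨z, hz⟩ := ((hF.ob c).mem _).1 hbr
  have hzero := (hF.ob c).inj (l * v'.1 - e * m * a0 * v.1 - q * z.1,
    l * v'.2 - e * m * a0 * v.2 - q * z.2) (by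
      push_cast at hm hl
      push_cast
      linear_combination (-(v'.1 : 𝓞 K) * α c - (v'.2 : 𝓞 K) * β c) * hl +
        (e : 𝓞 K) * a * ((v.1 : 𝓞 K) * α c + (v.2 : 𝓞 K) * β c) * hm +
        (e : 𝓞 K) * m * ((v.1 : 𝓞 K) * α c + (v.2 : 𝓞 K) * β c) * ha' +
        (q : 𝓞 K) * hz - hu1)
  have h1 : l * v'.1 - e * m * a0 * v.1 - q * z.1 = 0 := congrArg Prod.fst hzero
  have h2 : l * v'.2 - e * m * a0 * v.2 - q * z.2 = 0 := congrArg Prod.snd hzero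
  have h3 : (q : ℤ) ∣ l * dt v v' := by
    refine ⟨v.1 * z.2 - v.2 * z.1, ?_⟩
    unfold dt
    linear_combination v.1 * h2 - v.2 * h1
  have h4 : IsCoprime l ((d * q : ℕ) : ℤ) := by
    have h5 : (1 : 𝓞 K) ∈ Ideal.span {lam} ⊔ Ideal.span {((d * q : ℕ) : 𝓞 K)} := by
      rw [hlam.1.2]
      trivial
    obtain ⟨s, hs, t, ht, hst⟩ := Submodule.mem_sup.1 h5
    obtain ⟨x, rfl⟩ := Ideal.mem_span_singleton.1 hs
    obtain ⟨y, rfl⟩ := Ideal.mem_span_singleton.1 ht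
    refine cop_int (K := K) (x := x) (y := lam' * x + y) ?_
    linear_combination hst - x * hl
  refine (IsCoprime.of_isCoprime_of_dvd_right h4 ?_).symm.dvd_of_dvd_mul_left h3
  exact ⟨(d : ℤ), by push_cast; ring⟩

end Pool.Agent.H35.CF
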